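import Pool.Agent.Lib.P68998c.Path
import Pool.Agent.Lib.P68998c.Graphic
import Pool.Agent.Lib.P68998c.Critical
import Pool.Agent.Lib.P68998d.Greedy
import Pool.Agent.Lib.P68998e.Double
import Pool.Agent.Lib.P68998e.Small

set_option autoImplicit false

/-!
# A linear bound for the critical exponent of binary matroids without a wheel minor

Every loopless binary matroid with no `M(W_r)`-minor has critical exponent at most
`2 (r - 1) + ⌈3 log_2 (r - 1)⌉ + 1`, which is at most `4 (r - 1)`. Every simple binary matroid with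
no `M(W_r)`-minor has at most `((r - 2) 2 ^ (r - 2) + 1)` times its rank many elements and, if it is
nonempty, a cocircuit with fewer than `2 (r - 1) ^ 3 4 ^ (r - 1)` elements.
-/

namespace Pool.Agent.Results.MP_68998c_co.LinearCriticalExponent

open Pool.Agent.Lib.P68998c
open scoped Matroid

universe u

/-- The wheel with `r` spokes (for `r ≥ 3`): the rim vertices are `some i` with `i : ZMod r`, and
`some i` is joined to `some (i + 1)`; the hub `none` is joined to all rim vertices. -/
def wheelGraph (r : ℕ) : SimpleGraph (Option (ZMod r)) :=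
  SimpleGraph.fromRel fun a b => a = none ∨ ∃ i : ZMod r, a = some i ∧ b = some (i + 1)

/-- The matroid `N` is isomorphic to the cycle matroid of the simple graph `G`: some bijection from
the ground set of `N` to the edge set of `G` maps the independent sets exactly to the edge sets of
forests. -/
def IsoCycleMatroid {α β : Type*} (N : Matroid α) (G : SimpleGraph β) : Prop :=
  ∃ φ : α → Sym2 β, Set.BijOn φ N.E G.edgeSet ∧
    ∀ I ⊆ N.E, N.Indep I ↔ (SimpleGraph.fromEdgeSet (φ '' I)).IsAcyclic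

/-- `M` has no minor isomorphic to the cycle matroid of the wheel with `r` spokes. -/
def WheelFree {α : Type*} (r : ℕ) (M : Matroid α) : Prop :=
  ∀ N : Matroid α, N ≤m M → ¬ IsoCycleMatroid N (wheelGraph r)

/-- `M` is binary: it is represented by vectors over the field with two elements. -/
def IsBinary {α : Type*} (M : Matroid α) : Prop :=
  ∃ (n : ℕ) (v : α → (Fin n → ZMod 2)),
    ∀ I : Set α, M.Indep I ↔ I ⊆ M.E ∧ LinearIndepOn (ZMod 2) v I

/-- The characteristic polynomial
`p(M; lam) = ∑ A ⊆ E, (-1) ^ |A| * lam ^ (r(E) - r(A))` of a finite matroid. -/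
noncomputable def charPoly {α : Type*} (M : Matroid α) [M.Finite] : Polynomial ℤ :=
  ∑ A ∈ M.ground_finite.toFinset.powerset,
    (-1) ^ A.card * Polynomial.X ^ ((M.eRk M.E).toNat - (M.eRk (A : Set α)).toNat)

/-- `k` is the critical exponent `c(M; 2)`: the least positive integer `k` with `p(M; 2 ^ k) > 0`. -/
def IsCriticalExponent {α : Type*} (M : Matroid α) [M.Finite] (k : ℕ) : Prop :=
  IsLeast {k : ℕ | 0 < k ∧ 0 < (charPoly M).eval (2 ^ k)} k

section Aux

variable {α : Type u} {n : ℕ}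

lemma span_basis (M : Matroid α) (v : α → (Fin n → ZMod 2))
    (hv : ∀ I, M.Indep I ↔ I ⊆ M.E ∧ LinearIndepOn (ZMod 2) v I) {X I : Set α} (hX : X ⊆ M.E)
    (hI : M.IsBasis I X) :
    Submodule.span (ZMod 2) (v '' X) = Submodule.span (ZMod 2) (v '' I) := by
  refine le_antisymm ?_ (Submodule.span_mono (Set.image_mono hI.subset))
  rw [Submodule.span_le]
  rintro _ ⟨x, hx, rfl⟩
  by_contra hcon
  have h2 : M.Indep (insert x I) := by
    rw [hv]
    exact ⟨Set.insert_subset (hX hx) (hI.subset.trans hX), ((hv I).1 hI.indep).2.insert hcon⟩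
  have h3 := hI.mem_of_insert_indep hx h2
  exact hcon (Submodule.subset_span ⟨x, h3, rfl⟩)

lemma contract_rep (M : Matroid α) (v : α → (Fin n → ZMod 2))
    (hv : ∀ I, M.Indep I ↔ I ⊆ M.E ∧ LinearIndepOn (ZMod 2) v I) {C I : Set α} (hC : C ⊆ M.E)
    (hI : I ⊆ M.E) (hIC : Disjoint C I) :
    (M ／ C).Indep I ↔
      LinearIndepOn (ZMod 2) ((Submodule.span (ZMod 2) (v '' C)).mkQ ∘ v) I := by
  obtain ⟨J, hJ⟩ := M.exists_isBasis C
  have h1 := span_basis M v hv hC hJ
  rw [hJ.contract_indep_iff, h1]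
  have h2 : Disjoint J I := hIC.mono_left hJ.subset
  rw [LinearIndepOn.quotient_iff_union ((hv J).1 hJ.indep).2 h2, hv, Set.union_comm]
  constructor
  · rintro ⟨⟨-, h⟩, -⟩; exact h
  · intro h; exact ⟨⟨Set.union_subset (hJ.subset.trans hC) hI, h⟩, hIC⟩

lemma one_ne {m : ℕ} (hm : 2 ≤ m) (i : Fin (m + 1)) : i + 1 ≠ i := by
  intro h
  have h1 : (1 : Fin (m + 1)) = 0 := by simpa using h
  have h2 := congrArg Fin.val h1
  rw [Fin.val_one', Fin.val_zero, Nat.mod_eq_of_lt (by omega)] at h2
  omega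

lemma two_ne {m : ℕ} (hm : 2 ≤ m) (i : Fin (m + 1)) : i + 1 + 1 ≠ i := by
  intro h
  have h1 : (1 : Fin (m + 1)) + 1 = 0 := by
    rw [add_assoc] at h
    simpa using h
  have h2 := congrArg Fin.val h1
  rw [Fin.val_add, Fin.val_one', Fin.val_zero, Nat.mod_eq_of_lt (by omega : 1 < m + 1),
    Nat.mod_eq_of_lt (by omega)] at h2
  omega

/-- The edges of the wheel. -/
def wEdge {m : ℕ} : Fin (m + 1) ⊕ Fin (m + 1) → Sym2 (Option (Fin (m + 1)))
  | Sum.inl i => s(none, some i)
  | Sum.inr i => s(some i, some (i + 1))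

/-- The wheel graph with `Fin (m + 1)` instead of `ZMod (m + 1)`. -/
def wheelGraph' (m : ℕ) : SimpleGraph (Option (Fin (m + 1))) :=
  SimpleGraph.fromRel fun a b => a = none ∨ ∃ i : Fin (m + 1), a = some i ∧ b = some (i + 1)

lemma wheelGraph_eq (m : ℕ) : wheelGraph (m + 1) = wheelGraph' m := rfl

lemma wEdge_range {m : ℕ} (hm : 2 ≤ m) :
    Set.range (wEdge (m := m)) = (wheelGraph' m).edgeSet := by
  ext e
  induction e using Sym2.ind with
  | _ a b =>
    rw [SimpleGraph.mem_edgeSet, wheelGraph', SimpleGraph.fromRel_adj]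
    constructor
    · rintro ⟨i | i, hi⟩
      · simp only [wEdge, Sym2.eq_iff] at hi
        rcases hi with ⟨rfl, rfl⟩ | ⟨rfl, rfl⟩
        · exact ⟨by simp, Or.inl (Or.inl rfl)⟩
        · exact ⟨by simp, Or.inr (Or.inl rfl)⟩
      · simp only [wEdge, Sym2.eq_iff] at hi
        have h1 := one_ne hm i
        rcases hi with ⟨rfl, rfl⟩ | ⟨rfl, rfl⟩
        · exact ⟨fun h => h1 (Option.some.inj h).symm, Or.inl (Or.inr ⟨i, rfl, rfl⟩)⟩
        · exact ⟨fun h => h1 (Option.some.inj h), Or.inr (Or.inr ⟨i, rfl, rfl⟩)⟩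
    · rintro ⟨hne, (rfl | ⟨i, rfl, rfl⟩) | (rfl | ⟨i, rfl, rfl⟩)⟩
      · cases b with
        | none => exact absurd rfl hne
        | some i => exact ⟨Sum.inl i, rfl⟩
      · exact ⟨Sum.inr i, rfl⟩
      · cases a with
        | none => exact absurd rfl hne
        | some i => exact ⟨Sum.inl i, by rw [wEdge]; exact Sym2.eq_swap⟩
      · exact ⟨Sum.inr i, by rw [wEdge]; exact Sym2.eq_swap⟩

lemma wEdge_inj {m : ℕ} (hm : 2 ≤ m) : Function.Injective (wEdge (m := m)) := by
  rintro (i | i) (j | j) h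
  · simp only [wEdge, Sym2.eq_iff] at h
    simpa using h
  · simp only [wEdge, Sym2.eq_iff] at h
    simp at h
  · simp only [wEdge, Sym2.eq_iff] at h
    simp at h
  · simp only [wEdge, Sym2.eq_iff] at h
    rcases h with ⟨h1, -⟩ | ⟨h1, h2⟩
    · rw [Option.some.inj h1]
    · exfalso
      have h1 := Option.some.inj h1
      have h2 := Option.some.inj h2
      rw [h1] at h2
      exact two_ne hm j h2

lemma wEdge_not_isDiag {m : ℕ} (hm : 2 ≤ m) (s : Fin (m + 1) ⊕ Fin (m + 1)) :
    ¬ (wEdge s).IsDiag := by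
  rcases s with i | i
  · simp [wEdge]
  · have := one_ne hm i
    simp only [wEdge, Sym2.mk_isDiag_iff]
    exact fun h => this (Option.some.inj h).symm

lemma exists_wheel_minor {m : ℕ} (hm : 2 ≤ m) (M : Matroid α) [M.Finite]
    (v : α → (Fin n → ZMod 2))
    (hv : ∀ I, M.Indep I ↔ I ⊆ M.E ∧ LinearIndepOn (ZMod 2) v I)
    (h : HasWheel m (v '' M.E)) :
    ∃ N : Matroid α, N ≤m M ∧ IsoCycleMatroid N (wheelGraph' m) := by
  classical
  obtain ⟨C, z, x, hC, hz, hx, ⟨φ, hφC, hφz⟩, hs⟩ := h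
  choose z' hz'E hz' using hz
  choose x' hx'E hx' using hx
  have hφspan : ∀ w ∈ Submodule.span (ZMod 2) C, φ w = 0 := by
    intro w hw
    have : Submodule.span (ZMod 2) C ≤ LinearMap.ker φ := by
      rw [Submodule.span_le]; exact hφC
    exact this hw
  have hφx : ∀ i, φ (x i) = Pi.single i 1 + Pi.single (i + 1) 1 := by
    intro i
    have h1 := hφspan _ (hs i)
    rw [map_add, map_add, hφz, hφz] at h1
    have h2 : φ (x i) = φ (x i) + Pi.single i 1 + Pi.single (i + 1) 1 +
        (Pi.single i 1 + Pi.single (i + 1) 1) := by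
      have h3 := ZModModule.add_self (Pi.single i 1 + Pi.single (i + 1) 1 : Fin (m + 1) → ZMod 2)
      rw [add_assoc (φ (x i)), add_assoc (φ (x i)), h3, add_zero]
    rw [h2, h1, zero_add]
  set θ : Fin (m + 1) ⊕ Fin (m + 1) → α := Sum.elim z' x' with hθ
  set C' : Set α := {e | e ∈ M.E ∧ v e ∈ C} with hC'
  have hC'E : C' ⊆ M.E := fun e he => he.1
  have hvC' : v '' C' = C := by
    ext w
    constructor
    · rintro ⟨e, he, rfl⟩; exact he.2
    · intro hw
      obtain ⟨e, he, rfl⟩ := hC hw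
      exact ⟨e, ⟨he, hw⟩, rfl⟩
  set π := (Submodule.span (ZMod 2) C).mkQ with hπ
  -- the weights of the vertices
  set ω : Option (Fin (m + 1)) → (Fin n → ZMod 2) ⧸ Submodule.span (ZMod 2) C :=
    fun o => Option.elim o 0 (fun i => π (z i)) with hω
  have hedge : ∀ s, π (v (θ s)) = edgeVec ω (wEdge s) := by
    rintro (i | i)
    · simp [hθ, wEdge, hω, hz']
    · have h1 : π (x i + z i + z (i + 1)) = 0 := by
        rw [hπ, Submodule.mkQ_apply, Submodule.Quotient.mk_eq_zero]; exact hs i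
      have h2 : π (x i) = π (z i) + π (z (i + 1)) := by
        rw [map_add, map_add] at h1
        have h3 := ZModModule.add_self (π (z i) + π (z (i + 1)))
        calc π (x i) = π (x i) + (π (z i) + π (z (i + 1)) + (π (z i) + π (z (i + 1)))) := by
              rw [h3, add_zero]
          _ = (π (x i) + π (z i) + π (z (i + 1))) + (π (z i) + π (z (i + 1))) := by abel
          _ = _ := by rw [h1, zero_add]
      simp only [hθ, wEdge, hω, edgeVec_mk, Sum.elim_inr, Option.elim_some, hx', h2]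
  have hgen : ∀ h : Option (Fin (m + 1)) → ZMod 2,
      ∃ ψ : ((Fin n → ZMod 2) ⧸ Submodule.span (ZMod 2) C) →ₗ[ZMod 2] ZMod 2,
        ∀ a b, ψ (ω a + ω b) = h a + h b := by
    intro h
    have hker : Submodule.span (ZMod 2) C ≤ LinearMap.ker
        ((∑ i : Fin (m + 1), (h (some i) + h none) • LinearMap.proj i :
          (Fin (m + 1) → ZMod 2) →ₗ[ZMod 2] ZMod 2).comp φ) := by
      intro w hw
      rw [LinearMap.mem_ker, LinearMap.comp_apply, hφspan w hw, map_zero]
    refine ⟨(Submodule.span (ZMod 2) C).liftQ _ hker, ?_⟩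
    have h1 : ∀ a, ((Submodule.span (ZMod 2) C).liftQ _ hker) (ω a) = h a + h none := by
      intro a
      cases a with
      | none =>
        simp only [hω, Option.elim_none, map_zero]
        exact (ZModModule.add_self _).symm
      | some i =>
        simp only [hω, Option.elim_some, hπ, Submodule.mkQ_apply, Submodule.liftQ_apply,
          LinearMap.comp_apply, hφz]
        rw [LinearMap.sum_apply, Finset.sum_eq_single i]
        · simp
        · intro j _ hj
          simp [hj]
        · intro hcon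
          exact absurd (Finset.mem_univ i) hcon
    intro a b
    rw [map_add, h1, h1]
    have h2 := ZModModule.add_self (h none)
    calc h a + h none + (h b + h none) = h a + h b + (h none + h none) := by abel
      _ = _ := by rw [h2, add_zero]
  have hφθ : ∀ s, φ (v (θ s)) ≠ 0 := by
    rintro (i | i) h0
    · simp only [hθ, Sum.elim_inl, hz', hφz] at h0
      have := congrFun h0 i
      simp at this
    · simp only [hθ, Sum.elim_inr, hx', hφx] at h0
      have := congrFun h0 i
      rw [Pi.add_apply, Pi.single_eq_same, Pi.single_eq_of_ne (one_ne hm i).symm] at this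
      simp at this
  have hθinj : Function.Injective θ := by
    intro s s' hss
    have h1 : φ (v (θ s)) = φ (v (θ s')) := by rw [hss]
    rcases s with i | i <;> rcases s' with j | j
    · simp only [hθ, Sum.elim_inl, hz', hφz] at h1
      have := congrFun h1 i
      by_contra hij
      rw [Pi.single_eq_same, Pi.single_eq_of_ne (fun h => hij (by rw [h]))] at this
      simp at this
    · exfalso
      simp only [hθ, Sum.elim_inl, Sum.elim_inr, hz', hx', hφz, hφx] at h1
      have e1 := congrArg (fun f : Fin (m + 1) → ZMod 2 => ∑ t, f t) h1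
      simp only [Pi.add_apply, Finset.sum_add_distrib, Finset.sum_pi_single', Finset.mem_univ,
        if_true] at e1
      revert e1; decide
    · exfalso
      simp only [hθ, Sum.elim_inl, Sum.elim_inr, hz', hx', hφz, hφx] at h1
      have e1 := congrArg (fun f : Fin (m + 1) → ZMod 2 => ∑ t, f t) h1
      simp only [Pi.add_apply, Finset.sum_add_distrib, Finset.sum_pi_single', Finset.mem_univ,
        if_true] at e1
      revert e1; decide
    · simp only [hθ, Sum.elim_inr, hx', hφx] at h1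
      by_contra hij
      have hij' : i ≠ j := fun h => hij (by rw [h])
      have e1 := congrFun h1 i
      rw [Pi.add_apply, Pi.add_apply, Pi.single_eq_same, Pi.single_eq_of_ne (one_ne hm i).symm,
        Pi.single_eq_of_ne hij', add_zero, zero_add] at e1
      by_cases hij2 : i = j + 1
      · have e2 := congrFun h1 j
        rw [Pi.add_apply, Pi.add_apply, Pi.single_eq_same, Pi.single_eq_of_ne (one_ne hm j).symm,
          Pi.single_eq_of_ne hij'.symm, add_zero, zero_add, hij2,
          Pi.single_eq_of_ne (two_ne hm j).symm] at e2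
        simp at e2
      · rw [Pi.single_eq_of_ne hij2] at e1
        simp at e1
  have hθE : ∀ s, θ s ∈ M.E := by
    rintro (i | i)
    · exact hz'E i
    · exact hx'E i
  have hθC : ∀ s, θ s ∉ C' := fun s hs' => hφθ s (hφC _ hs'.2)
  set N : Matroid α := M ／ C' ＼ (M.E \ Set.range θ) with hN
  have hNE : N.E = Set.range θ := by
    rw [hN, Matroid.delete_ground, Matroid.contract_ground]
    ext e
    simp only [Set.mem_sdiff, not_and, not_not]
    constructor
    · rintro ⟨⟨h1, h2⟩, h3⟩; exact h3 h1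
    · rintro ⟨s, rfl⟩
      exact ⟨⟨hθE s, hθC s⟩, fun _ => ⟨s, rfl⟩⟩
  refine ⟨N, ⟨C', _, rfl⟩, Function.extend θ wEdge (fun _ => s(none, none)), ?_, ?_⟩
  · rw [hNE, ← wEdge_range hm]
    refine ⟨?_, ?_, ?_⟩
    · rintro _ ⟨s, rfl⟩
      rw [hθinj.extend_apply]
      exact ⟨s, rfl⟩
    · rintro _ ⟨s, rfl⟩ _ ⟨s', rfl⟩ hss
      rw [hθinj.extend_apply, hθinj.extend_apply] at hss
      rw [wEdge_inj hm hss]
    · rintro _ ⟨s, rfl⟩
      exact ⟨θ s, ⟨s, rfl⟩, hθinj.extend_apply _ _ _⟩
  · intro I hI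
    rw [hNE] at hI
    have hIE : I ⊆ M.E := fun e he => by
      obtain ⟨s, rfl⟩ := hI he; exact hθE s
    have hIC : Disjoint C' I := by
      rw [Set.disjoint_right]
      intro e he
      obtain ⟨s, rfl⟩ := hI he
      exact hθC s
    rw [hN, Matroid.delete_indep_iff, contract_rep M v hv hC'E hIE hIC, hvC']
    have hdisj : Disjoint I (M.E \ Set.range θ) := by
      rw [Set.disjoint_left]
      intro e he h2
      exact h2.2 (hI he)
    rw [and_iff_left hdisj]
    set f := Function.extend θ wEdge (fun _ => s(none, none)) with hf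
    have hfinj : Set.InjOn f I := by
      intro e he e' he' hee
      obtain ⟨s, rfl⟩ := hI he
      obtain ⟨s', rfl⟩ := hI he'
      rw [hf, hθinj.extend_apply, hθinj.extend_apply] at hee
      rw [wEdge_inj hm hee]
    have hfI : (f '' I).Finite := (M.ground_finite.subset hIE).image _
    rw [← linearIndepOn_edgeVec_iff ω hgen (f '' I) hfI]
    · have hcongr : Set.EqOn (π ∘ v) (edgeVec ω ∘ f) I := by
        intro e he
        obtain ⟨s, rfl⟩ := hI he
        rw [Function.comp_apply, Function.comp_apply, hedge, hf, hθinj.extend_apply]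
      constructor
      · intro h1
        exact (h1.congr hcongr).image_of_comp
      · intro h1
        exact (h1.comp_of_image hfinj).congr hcongr.symm
    · rintro _ ⟨e, he, rfl⟩
      obtain ⟨s, rfl⟩ := hI he
      rw [hf, hθinj.extend_apply]
      exact wEdge_not_isDiag hm s

/-- A set whose complement is not spanning contains a cocircuit. -/
lemma exists_cocircuit (M : Matroid α) [M.Finite] {K0 : Set α} (hK0 : K0 ⊆ M.E)
    (h : ¬ M.Spanning (M.E \ K0)) : ∃ K ⊆ K0, M.IsCocircuit K := by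
  have hdep : M✶.Dep K0 := by
    rw [← Matroid.not_indep_iff (by simpa using hK0)]
    intro hind
    exact h ((M.coindep_iff_compl_spanning hK0).1 hind)
  obtain ⟨K, hK, hKc⟩ := hdep.exists_isCircuit_subset
  exact ⟨K, hK, hKc⟩

/-- The elements on which a functional takes the value `1` contain a cocircuit. -/
lemma cocircuit_of_functional (M : Matroid α) [M.Finite] (v : α → (Fin n → ZMod 2))
    (hv : ∀ I, M.Indep I ↔ I ⊆ M.E ∧ LinearIndepOn (ZMod 2) v I)
    (f : (Fin n → ZMod 2) →ₗ[ZMod 2] ZMod 2) (hne : ∃ e ∈ M.E, f (v e) = 1) :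
    ∃ K ⊆ {e | e ∈ M.E ∧ f (v e) = 1}, M.IsCocircuit K := by
  refine exists_cocircuit M (fun e he => he.1) ?_
  intro hsp
  obtain ⟨B, hB, hBs⟩ := hsp.exists_isBase_subset
  obtain ⟨e, he, hfe⟩ := hne
  have hker : Submodule.span (ZMod 2) (v '' B) ≤ LinearMap.ker f := by
    rw [Submodule.span_le]
    rintro _ ⟨b, hb, rfl⟩
    have h1 := hBs hb
    have h2 : ¬ f (v b) = 1 := fun h => h1.2 ⟨h1.1, h⟩
    have h3 : ∀ y : ZMod 2, ¬ y = 1 → y = 0 := by decide
    exact h3 _ h2
  have hnot : v e ∉ Submodule.span (ZMod 2) (v '' B) := by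
    intro h
    have h1 : f (v e) = 0 := hker h
    rw [hfe] at h1
    exact one_ne_zero h1
  have hind : M.Indep (insert e B) := by
    rw [hv]
    exact ⟨Set.insert_subset he hB.subset_ground, ((hv B).1 hB.indep).2.insert hnot⟩
  have heB : e ∈ B := hB.mem_of_insert_indep hind
  exact hnot (Submodule.subset_span ⟨e, heB, rfl⟩)

lemma numeric_lt (a : ℕ) (ha : 1 ≤ a) :
    8 * (a * 2 ^ a + 1) ^ 2 * (a + 1) + 2 < 2 * (a + 1) ^ 3 * 4 ^ (a + 1) := by
  have h2 : (4 : ℕ) ^ (a + 1) = 4 * (2 ^ a) ^ 2 := by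
    rw [← pow_mul, mul_comm a 2, pow_mul, pow_succ]
    norm_num
    ring
  rw [h2]
  have h3 : 2 ≤ 2 ^ a := by
    calc 2 = 2 ^ 1 := (pow_one 2).symm
      _ ≤ 2 ^ a := Nat.pow_le_pow_right (by norm_num) ha
  obtain ⟨q, hq⟩ : ∃ q, 2 ^ a = q + 2 := ⟨2 ^ a - 2, by omega⟩
  obtain ⟨b, rfl⟩ : ∃ b, a = b + 1 := ⟨a - 1, by omega⟩
  rw [hq]
  have h4 : ((b + 1) * (q + 2) + 1) ^ 2 + 1 ≤ ((b + 1 + 1) * (q + 2)) ^ 2 := by
    nlinarith [Nat.zero_le (b * q), Nat.zero_le (b * q * q), Nat.zero_le q, Nat.zero_le b,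
      Nat.zero_le (q * q)]
  calc 8 * ((b + 1) * (q + 2) + 1) ^ 2 * (b + 1 + 1) + 2
      < 8 * (((b + 1) * (q + 2) + 1) ^ 2 + 1) * (b + 1 + 1) := by nlinarith
    _ ≤ 8 * (((b + 1 + 1) * (q + 2)) ^ 2) * (b + 1 + 1) :=
        Nat.mul_le_mul_right _ (Nat.mul_le_mul_left _ h4)
    _ = _ := by ring

lemma numeric_pow (a : ℕ) : 2 * (a + 1) ^ 3 * 4 ^ (a + 1) ≤
    2 ^ (2 * (a + 1) + Nat.clog 2 ((a + 1) ^ 3) + 1) := by
  have h1 : (a + 1) ^ 3 ≤ 2 ^ Nat.clog 2 ((a + 1) ^ 3) := Nat.le_pow_clog (by norm_num) _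
  have h2 : 2 ^ (2 * (a + 1) + Nat.clog 2 ((a + 1) ^ 3) + 1) =
      2 * 2 ^ Nat.clog 2 ((a + 1) ^ 3) * 4 ^ (a + 1) := by
    rw [pow_add, pow_add, pow_mul 2 2 (a + 1)]
    norm_num
    ring
  rw [h2]
  exact Nat.mul_le_mul_right _ (Nat.mul_le_mul_left _ h1)

lemma numeric_four (a : ℕ) (ha : 1 ≤ a) :
    2 * (a + 1) + Nat.clog 2 ((a + 1) ^ 3) + 1 ≤ 4 * (a + 1) := by
  have h1 : 2 * (a + 1) ^ 3 ≤ 4 ^ (a + 1) := by
    induction a, ha using Nat.le_induction with
    | base => norm_num
    | succ m hm ih =>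
      calc 2 * (m + 1 + 1) ^ 3 ≤ 4 * (2 * (m + 1) ^ 3) := by
            obtain ⟨b, rfl⟩ : ∃ b, m = b + 1 := ⟨m - 1, by omega⟩
            nlinarith [Nat.zero_le b, Nat.zero_le (b * b), Nat.zero_le (b * b * b)]
        _ ≤ 4 * 4 ^ (m + 1) := Nat.mul_le_mul_left _ ih
        _ = 4 ^ (m + 1 + 1) := by ring
  have h2 : (a + 1) ^ 3 ≤ 2 ^ (2 * a + 1) := by
    have h3 : (4 : ℕ) ^ (a + 1) = 2 * 2 ^ (2 * a + 1) := by
      rw [show (4 : ℕ) = 2 ^ 2 by norm_num, ← pow_mul, ← pow_succ']
      congr 1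
    omega
  have h3 := Nat.clog_le_of_le_pow h2
  omega

end Aux

/-- Let `r ≥ 3` and let `M` be a finite binary matroid with no minor isomorphic to `M(W_r)`.
If `M` is loopless then its critical exponent `c(M; 2)` exists and is at most
`2 (r - 1) + ⌈3 log_2 (r - 1)⌉ + 1`, and at most `4 (r - 1)`.  If `M` is simple then it has at most
`((r - 2) 2 ^ (r - 2) + 1) * rank` elements and, if it is nonempty, a cocircuit with fewer than
`2 (r - 1) ^ 3 4 ^ (r - 1)` elements. -/
theorem result (r : ℕ) (hr : 3 ≤ r) (α : Type u) (M : Matroid α) [M.Finite] (hM : IsBinary M)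
    (hW : WheelFree r M) :
    (M.Loopless → ∃ k, IsCriticalExponent M k ∧
      k ≤ 2 * (r - 1) + Nat.clog 2 ((r - 1) ^ 3) + 1 ∧ k ≤ 4 * (r - 1)) ∧
    ((∀ e ∈ M.E, ∀ f ∈ M.E, M.Indep {e, f}) →
      M.E.ncard ≤ ((r - 2) * 2 ^ (r - 2) + 1) * (M.eRk M.E).toNat ∧
      (M.E.Nonempty → ∃ K, M.IsCocircuit K ∧ K.ncard < 2 * (r - 1) ^ 3 * 4 ^ (r - 1))) := by
  classical
  obtain ⟨a, rfl⟩ : ∃ a, r = a + 2 := ⟨r - 2, by omega⟩
  obtain ⟨n, v, hv⟩ := hM
  have ha : 1 ≤ a := by omega
  have hr1 : a + 2 - 1 = a + 1 := rfl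
  have hr2 : a + 2 - 2 = a := rfl
  rw [hr1, hr2]
  have hnum := numeric_lt a ha
  set t := a * 2 ^ a + 1 with htdef
  have hnoW : ¬ HasWheel (a + 1) (v '' M.E) := by
    intro h
    obtain ⟨N, hN, hiso⟩ := exists_wheel_minor (by omega) M v hv h
    exact hW N hN (by rw [wheelGraph_eq]; exact hiso)
  set X : Finset (Fin n → ZMod 2) := M.ground_finite.toFinset.image v with hX
  have hXc : (X : Set (Fin n → ZMod 2)) = v '' M.E := by
    rw [hX, Finset.coe_image, Set.Finite.coe_toFinset]
  have hnoWs : ∀ A ⊆ X, ¬ HasWheel (a + 1) (A : Set (Fin n → ZMod 2)) := by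
    intro A hA h
    refine hnoW (h.mono ?_)
    rw [← hXc]
    exact_mod_cast hA
  constructor
  · intro hloop
    have h0 : (0 : Fin n → ZMod 2) ∉ X := by
      intro h
      rw [← Finset.mem_coe, hXc] at h
      obtain ⟨e, he, h0⟩ := h
      have h1 : M.Indep {e} := M.subsingleton_indep Set.subsingleton_singleton (by simpa using he)
      have h2 := ((hv _).1 h1).2.ne_zero (Set.mem_singleton e)
      exact h2 h0
    set K := 2 * (a + 1) + Nat.clog 2 ((a + 1) ^ 3) + 1 with hK
    obtain ⟨Φ, hΦ⟩ := Pool.Agent.Lib.P68998d.greedy K X (by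
      intro Y hY hYne
      obtain ⟨f, hf1, hf2⟩ := Pool.Agent.Lib.P68998e.small_cocircuit a ha Y (fun h => h0 (hY h))
        hYne (hnoWs Y hY)
      exact ⟨f, hf1, lt_of_le_of_lt hf2 (lt_of_lt_of_le hnum (numeric_pow a))⟩)
    have hpos : 0 < (charPoly M).eval (2 ^ K) := by
      have h1 := charPoly_pos (n := n) K v M.ground_finite.toFinset Φ
        (fun e he => hΦ _ (Finset.mem_image_of_mem _ he))
        (fun A => (M.eRk (A : Set α)).toNat)
        (by
          intro A hA
          refine eRk_toNat_eq M v hv ?_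
          intro e he
          exact M.ground_finite.mem_toFinset.1 (hA he))
      rw [charPoly, Polynomial.eval_finsetSum]
      simp only [Set.Finite.coe_toFinset] at h1
      convert h1 using 2 with A hA
      simp
    set S : Set ℕ := {k : ℕ | 0 < k ∧ 0 < (charPoly M).eval (2 ^ k)} with hS
    have hKS : K ∈ S := ⟨by omega, hpos⟩
    have h2 : sInf S ≤ K := Nat.sInf_le hKS
    exact ⟨sInf S, ⟨Nat.sInf_mem ⟨K, hKS⟩, fun k hk => Nat.sInf_le hk⟩, h2,
      h2.trans (numeric_four a ha)⟩
  · intro hsimple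
    have hinj : Set.InjOn v M.E := by
      intro e he f hf hef
      have h1 := ((hv _).1 (hsimple e he f hf)).2.injOn
      exact h1 (by simp) (by simp) hef
    have h0 : (0 : Fin n → ZMod 2) ∉ X := by
      intro h
      rw [← Finset.mem_coe, hXc] at h
      obtain ⟨e, he, h0⟩ := h
      have h2 := ((hv _).1 (hsimple e he e he)).2.ne_zero (Set.mem_insert e _)
      exact h2 h0
    refine ⟨?_, ?_⟩
    · have h1 := Pool.Agent.Lib.P68998e.density a _ ha _ X h0 (hnoWs X subset_rfl) le_rfl
      have h2 : X.card = M.E.ncard := by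
        rw [hX, Finset.card_image_of_injOn, Set.ncard_eq_toFinset_card _ M.ground_finite]
        intro e he f hf hef
        exact hinj (by simpa using he) (by simpa using hf) hef
      rw [hXc, ← eRk_toNat_eq M v hv subset_rfl, h2] at h1
      exact h1
    · intro hne
      have hXne : X.Nonempty := by
        obtain ⟨e, he⟩ := hne
        exact ⟨v e, Finset.mem_image_of_mem _ (M.ground_finite.mem_toFinset.2 he)⟩
      obtain ⟨f, hf1, hf2⟩ := Pool.Agent.Lib.P68998e.small_cocircuit a ha X h0 hXne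
        (hnoWs X subset_rfl)
      have hne' : ∃ e ∈ M.E, f (v e) = 1 := by
        obtain ⟨x, hx⟩ := hf1
        rw [Finset.mem_filter, hX, Finset.mem_image] at hx
        obtain ⟨⟨e, he, rfl⟩, hfe⟩ := hx
        exact ⟨e, M.ground_finite.mem_toFinset.1 he, hfe⟩
      obtain ⟨K, hKs, hK⟩ := cocircuit_of_functional M v hv f hne'
      have hKE : K ⊆ M.E := fun e he => (hKs he).1
      have hcard : K.ncard ≤ (X.filter fun x => f x = 1).card := by
        rw [← Set.ncard_coe_finset]
        refine Set.ncard_le_ncard_of_injOn v ?_ (hinj.mono hKE) (Finset.finite_toSet _)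
        intro e he
        have h1 := hKs he
        rw [Finset.mem_coe, Finset.mem_filter]
        exact ⟨Finset.mem_image_of_mem _ (M.ground_finite.mem_toFinset.2 h1.1), h1.2⟩
      exact ⟨K, hK, lt_of_le_of_lt (hcard.trans hf2) hnum⟩

end Pool.Agent.Results.MP_68998c_co.LinearCriticalExponent
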