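import Pool.Agent.Lib.P68998c.Path
import Pool.Agent.Lib.P68998c.Covering
import Pool.Agent.Lib.P68998c.Graphic
import Pool.Agent.Lib.P68998c.Critical

set_option autoImplicit false

/-!
# Binary matroids without a wheel minor have bounded critical exponent

A simple binary matroid with no `M(W_r)`-minor has at most `choose (2 r - 3) (r - 2)` times its rank
many elements, and every loopless binary matroid with no `M(W_r)`-minor has critical exponent at
most `choose (2 r - 3) (r - 2)`.
-/

namespace Pool.Agent.Results.MP_68998c_co.WheelCriticalExponent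

open Pool.Agent.Lib.P68998c
open scoped Matroid

universe u

/-- The wheel with `r` spokes (for `r ≥ 3`): the rim vertices are `some i` with `i : ZMod r`, and
`some i` is joined to `some (i + 1)`; the hub `none` is joined to all rim vertices. -/
def wheelGraph (r : ℕ) : SimpleGraph (Option (ZMod r)) :=
  SimpleGraph.fromRel fun a b => a = none ∨ ∃ i : ZMod r, a = some i ∧ b = some (i + 1)

/-- The matroid `N` is isomorphic to the cycle matroid of the simple graph `G`: some bijection from
the ground set of `N` to the edge set of `G` maps the independent sets exactly to the edge sets of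
forests. -/
def IsoCycleMatroid {α β : Type*} (N : Matroid α) (G : SimpleGraph β) : Prop :=
  ∃ φ : α → Sym2 β, Set.BijOn φ N.E G.edgeSet ∧
    ∀ I ⊆ N.E, N.Indep I ↔ (SimpleGraph.fromEdgeSet (φ '' I)).IsAcyclic

/-- `M` has no minor isomorphic to the cycle matroid of the wheel with `r` spokes. -/
def WheelFree {α : Type*} (r : ℕ) (M : Matroid α) : Prop :=
  ∀ N : Matroid α, N ≤m M → ¬ IsoCycleMatroid N (wheelGraph r)

/-- `M` is binary: it is represented by vectors over the field with two elements. -/
def IsBinary {α : Type*} (M : Matroid α) : Prop :=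
  ∃ (n : ℕ) (v : α → (Fin n → ZMod 2)),
    ∀ I : Set α, M.Indep I ↔ I ⊆ M.E ∧ LinearIndepOn (ZMod 2) v I

/-- The characteristic polynomial
`p(M; lam) = ∑ A ⊆ E, (-1) ^ |A| * lam ^ (r(E) - r(A))` of a finite matroid. -/
noncomputable def charPoly {α : Type*} (M : Matroid α) [M.Finite] : Polynomial ℤ :=
  ∑ A ∈ M.ground_finite.toFinset.powerset,
    (-1) ^ A.card * Polynomial.X ^ ((M.eRk M.E).toNat - (M.eRk (A : Set α)).toNat)

/-- `k` is the critical exponent `c(M; 2)`: the least positive integer `k` with `p(M; 2 ^ k) > 0`. -/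
def IsCriticalExponent {α : Type*} (M : Matroid α) [M.Finite] (k : ℕ) : Prop :=
  IsLeast {k : ℕ | 0 < k ∧ 0 < (charPoly M).eval (2 ^ k)} k

section Aux

variable {α : Type u} {n : ℕ}

lemma span_basis (M : Matroid α) (v : α → (Fin n → ZMod 2))
    (hv : ∀ I, M.Indep I ↔ I ⊆ M.E ∧ LinearIndepOn (ZMod 2) v I) {X I : Set α} (hX : X ⊆ M.E)
    (hI : M.IsBasis I X) :
    Submodule.span (ZMod 2) (v '' X) = Submodule.span (ZMod 2) (v '' I) := by
  refine le_antisymm ?_ (Submodule.span_mono (Set.image_mono hI.subset))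
  rw [Submodule.span_le]
  rintro _ ⟨x, hx, rfl⟩
  by_contra hcon
  have h2 : M.Indep (insert x I) := by
    rw [hv]
    exact ⟨Set.insert_subset (hX hx) (hI.subset.trans hX), ((hv I).1 hI.indep).2.insert hcon⟩
  have h3 := hI.mem_of_insert_indep hx h2
  exact hcon (Submodule.subset_span ⟨x, h3, rfl⟩)

lemma contract_rep (M : Matroid α) (v : α → (Fin n → ZMod 2))
    (hv : ∀ I, M.Indep I ↔ I ⊆ M.E ∧ LinearIndepOn (ZMod 2) v I) {C I : Set α} (hC : C ⊆ M.E)
    (hI : I ⊆ M.E) (hIC : Disjoint C I) :
    (M ／ C).Indep I ↔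
      LinearIndepOn (ZMod 2) ((Submodule.span (ZMod 2) (v '' C)).mkQ ∘ v) I := by
  obtain ⟨J, hJ⟩ := M.exists_isBasis C
  have h1 := span_basis M v hv hC hJ
  rw [hJ.contract_indep_iff, h1]
  have h2 : Disjoint J I := hIC.mono_left hJ.subset
  rw [LinearIndepOn.quotient_iff_union ((hv J).1 hJ.indep).2 h2, hv, Set.union_comm]
  constructor
  · rintro ⟨⟨-, h⟩, -⟩; exact h
  · intro h; exact ⟨⟨Set.union_subset (hJ.subset.trans hC) hI, h⟩, hIC⟩

lemma one_ne {m : ℕ} (hm : 2 ≤ m) (i : Fin (m + 1)) : i + 1 ≠ i := by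
  intro h
  have h1 : (1 : Fin (m + 1)) = 0 := by simpa using h
  have h2 := congrArg Fin.val h1
  rw [Fin.val_one', Fin.val_zero, Nat.mod_eq_of_lt (by omega)] at h2
  omega

lemma two_ne {m : ℕ} (hm : 2 ≤ m) (i : Fin (m + 1)) : i + 1 + 1 ≠ i := by
  intro h
  have h1 : (1 : Fin (m + 1)) + 1 = 0 := by
    rw [add_assoc] at h
    simpa using h
  have h2 := congrArg Fin.val h1
  rw [Fin.val_add, Fin.val_one', Fin.val_zero, Nat.mod_eq_of_lt (by omega : 1 < m + 1),
    Nat.mod_eq_of_lt (by omega)] at h2
  omega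

/-- The edges of the wheel. -/
def wEdge {m : ℕ} : Fin (m + 1) ⊕ Fin (m + 1) → Sym2 (Option (Fin (m + 1)))
  | Sum.inl i => s(none, some i)
  | Sum.inr i => s(some i, some (i + 1))

/-- The wheel graph with `Fin (m + 1)` instead of `ZMod (m + 1)`. -/
def wheelGraph' (m : ℕ) : SimpleGraph (Option (Fin (m + 1))) :=
  SimpleGraph.fromRel fun a b => a = none ∨ ∃ i : Fin (m + 1), a = some i ∧ b = some (i + 1)

lemma wheelGraph_eq (m : ℕ) : wheelGraph (m + 1) = wheelGraph' m := rfl

lemma wEdge_range {m : ℕ} (hm : 2 ≤ m) :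
    Set.range (wEdge (m := m)) = (wheelGraph' m).edgeSet := by
  ext e
  induction e using Sym2.ind with
  | _ a b =>
    rw [SimpleGraph.mem_edgeSet, wheelGraph', SimpleGraph.fromRel_adj]
    constructor
    · rintro ⟨i | i, hi⟩
      · simp only [wEdge, Sym2.eq_iff] at hi
        rcases hi with ⟨rfl, rfl⟩ | ⟨rfl, rfl⟩
        · exact ⟨by simp, Or.inl (Or.inl rfl)⟩
        · exact ⟨by simp, Or.inr (Or.inl rfl)⟩
      · simp only [wEdge, Sym2.eq_iff] at hi
        have h1 := one_ne hm i
        rcases hi with ⟨rfl, rfl⟩ | ⟨rfl, rfl⟩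
        · exact ⟨fun h => h1 (Option.some.inj h).symm, Or.inl (Or.inr ⟨i, rfl, rfl⟩)⟩
        · exact ⟨fun h => h1 (Option.some.inj h), Or.inr (Or.inr ⟨i, rfl, rfl⟩)⟩
    · rintro ⟨hne, (rfl | ⟨i, rfl, rfl⟩) | (rfl | ⟨i, rfl, rfl⟩)⟩
      · cases b with
        | none => exact absurd rfl hne
        | some i => exact ⟨Sum.inl i, rfl⟩
      · exact ⟨Sum.inr i, rfl⟩
      · cases a with
        | none => exact absurd rfl hne
        | some i => exact ⟨Sum.inl i, by rw [wEdge]; exact Sym2.eq_swap⟩
      · exact ⟨Sum.inr i, by rw [wEdge]; exact Sym2.eq_swap⟩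

lemma wEdge_inj {m : ℕ} (hm : 2 ≤ m) : Function.Injective (wEdge (m := m)) := by
  rintro (i | i) (j | j) h
  · simp only [wEdge, Sym2.eq_iff] at h
    simpa using h
  · simp only [wEdge, Sym2.eq_iff] at h
    simp at h
  · simp only [wEdge, Sym2.eq_iff] at h
    simp at h
  · simp only [wEdge, Sym2.eq_iff] at h
    rcases h with ⟨h1, -⟩ | ⟨h1, h2⟩
    · rw [Option.some.inj h1]
    · exfalso
      have h1 := Option.some.inj h1
      have h2 := Option.some.inj h2
      rw [h1] at h2
      exact two_ne hm j h2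

lemma wEdge_not_isDiag {m : ℕ} (hm : 2 ≤ m) (s : Fin (m + 1) ⊕ Fin (m + 1)) :
    ¬ (wEdge s).IsDiag := by
  rcases s with i | i
  · simp [wEdge]
  · have := one_ne hm i
    simp only [wEdge, Sym2.mk_isDiag_iff]
    exact fun h => this (Option.some.inj h).symm

lemma exists_wheel_minor {m : ℕ} (hm : 2 ≤ m) (M : Matroid α) [M.Finite]
    (v : α → (Fin n → ZMod 2))
    (hv : ∀ I, M.Indep I ↔ I ⊆ M.E ∧ LinearIndepOn (ZMod 2) v I)
    (h : HasWheel m (v '' M.E)) :
    ∃ N : Matroid α, N ≤m M ∧ IsoCycleMatroid N (wheelGraph' m) := by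
  classical
  obtain ⟨C, z, x, hC, hz, hx, ⟨φ, hφC, hφz⟩, hs⟩ := h
  choose z' hz'E hz' using hz
  choose x' hx'E hx' using hx
  have hφspan : ∀ w ∈ Submodule.span (ZMod 2) C, φ w = 0 := by
    intro w hw
    have : Submodule.span (ZMod 2) C ≤ LinearMap.ker φ := by
      rw [Submodule.span_le]; exact hφC
    exact this hw
  have hφx : ∀ i, φ (x i) = Pi.single i 1 + Pi.single (i + 1) 1 := by
    intro i
    have h1 := hφspan _ (hs i)
    rw [map_add, map_add, hφz, hφz] at h1
    have h2 : φ (x i) = φ (x i) + Pi.single i 1 + Pi.single (i + 1) 1 +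
        (Pi.single i 1 + Pi.single (i + 1) 1) := by
      have h3 := ZModModule.add_self (Pi.single i 1 + Pi.single (i + 1) 1 : Fin (m + 1) → ZMod 2)
      rw [add_assoc (φ (x i)), add_assoc (φ (x i)), h3, add_zero]
    rw [h2, h1, zero_add]
  set θ : Fin (m + 1) ⊕ Fin (m + 1) → α := Sum.elim z' x' with hθ
  set C' : Set α := {e | e ∈ M.E ∧ v e ∈ C} with hC'
  have hC'E : C' ⊆ M.E := fun e he => he.1
  have hvC' : v '' C' = C := by
    ext w
    constructor
    · rintro ⟨e, he, rfl⟩; exact he.2
    · intro hw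
      obtain ⟨e, he, rfl⟩ := hC hw
      exact ⟨e, ⟨he, hw⟩, rfl⟩
  set π := (Submodule.span (ZMod 2) C).mkQ with hπ
  -- the weights of the vertices
  set ω : Option (Fin (m + 1)) → (Fin n → ZMod 2) ⧸ Submodule.span (ZMod 2) C :=
    fun o => Option.elim o 0 (fun i => π (z i)) with hω
  have hedge : ∀ s, π (v (θ s)) = edgeVec ω (wEdge s) := by
    rintro (i | i)
    · simp [hθ, wEdge, hω, hz']
    · have h1 : π (x i + z i + z (i + 1)) = 0 := by
        rw [hπ, Submodule.mkQ_apply, Submodule.Quotient.mk_eq_zero]; exact hs i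
      have h2 : π (x i) = π (z i) + π (z (i + 1)) := by
        rw [map_add, map_add] at h1
        have h3 := ZModModule.add_self (π (z i) + π (z (i + 1)))
        calc π (x i) = π (x i) + (π (z i) + π (z (i + 1)) + (π (z i) + π (z (i + 1)))) := by
              rw [h3, add_zero]
          _ = (π (x i) + π (z i) + π (z (i + 1))) + (π (z i) + π (z (i + 1))) := by abel
          _ = _ := by rw [h1, zero_add]
      simp only [hθ, wEdge, hω, edgeVec_mk, Sum.elim_inr, Option.elim_some, hx', h2]
  have hgen : ∀ h : Option (Fin (m + 1)) → ZMod 2,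
      ∃ ψ : ((Fin n → ZMod 2) ⧸ Submodule.span (ZMod 2) C) →ₗ[ZMod 2] ZMod 2,
        ∀ a b, ψ (ω a + ω b) = h a + h b := by
    intro h
    have hker : Submodule.span (ZMod 2) C ≤ LinearMap.ker
        ((∑ i : Fin (m + 1), (h (some i) + h none) • LinearMap.proj i :
          (Fin (m + 1) → ZMod 2) →ₗ[ZMod 2] ZMod 2).comp φ) := by
      intro w hw
      rw [LinearMap.mem_ker, LinearMap.comp_apply, hφspan w hw, map_zero]
    refine ⟨(Submodule.span (ZMod 2) C).liftQ _ hker, ?_⟩
    have h1 : ∀ a, ((Submodule.span (ZMod 2) C).liftQ _ hker) (ω a) = h a + h none := by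
      intro a
      cases a with
      | none =>
        simp only [hω, Option.elim_none, map_zero]
        exact (ZModModule.add_self _).symm
      | some i =>
        simp only [hω, Option.elim_some, hπ, Submodule.mkQ_apply, Submodule.liftQ_apply,
          LinearMap.comp_apply, hφz]
        rw [LinearMap.sum_apply, Finset.sum_eq_single i]
        · simp
        · intro j _ hj
          simp [hj]
        · intro hcon
          exact absurd (Finset.mem_univ i) hcon
    intro a b
    rw [map_add, h1, h1]
    have h2 := ZModModule.add_self (h none)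
    calc h a + h none + (h b + h none) = h a + h b + (h none + h none) := by abel
      _ = _ := by rw [h2, add_zero]
  have hφθ : ∀ s, φ (v (θ s)) ≠ 0 := by
    rintro (i | i) h0
    · simp only [hθ, Sum.elim_inl, hz', hφz] at h0
      have := congrFun h0 i
      simp at this
    · simp only [hθ, Sum.elim_inr, hx', hφx] at h0
      have := congrFun h0 i
      rw [Pi.add_apply, Pi.single_eq_same, Pi.single_eq_of_ne (one_ne hm i).symm] at this
      simp at this
  have hθinj : Function.Injective θ := by
    intro s s' hss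
    have h1 : φ (v (θ s)) = φ (v (θ s')) := by rw [hss]
    rcases s with i | i <;> rcases s' with j | j
    · simp only [hθ, Sum.elim_inl, hz', hφz] at h1
      have := congrFun h1 i
      by_contra hij
      rw [Pi.single_eq_same, Pi.single_eq_of_ne (fun h => hij (by rw [h]))] at this
      simp at this
    · exfalso
      simp only [hθ, Sum.elim_inl, Sum.elim_inr, hz', hx', hφz, hφx] at h1
      have e1 := congrArg (fun f : Fin (m + 1) → ZMod 2 => ∑ t, f t) h1
      simp only [Pi.add_apply, Finset.sum_add_distrib, Finset.sum_pi_single', Finset.mem_univ,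
        if_true] at e1
      revert e1; decide
    · exfalso
      simp only [hθ, Sum.elim_inl, Sum.elim_inr, hz', hx', hφz, hφx] at h1
      have e1 := congrArg (fun f : Fin (m + 1) → ZMod 2 => ∑ t, f t) h1
      simp only [Pi.add_apply, Finset.sum_add_distrib, Finset.sum_pi_single', Finset.mem_univ,
        if_true] at e1
      revert e1; decide
    · simp only [hθ, Sum.elim_inr, hx', hφx] at h1
      by_contra hij
      have hij' : i ≠ j := fun h => hij (by rw [h])
      have e1 := congrFun h1 i
      rw [Pi.add_apply, Pi.add_apply, Pi.single_eq_same, Pi.single_eq_of_ne (one_ne hm i).symm,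
        Pi.single_eq_of_ne hij', add_zero, zero_add] at e1
      by_cases hij2 : i = j + 1
      · have e2 := congrFun h1 j
        rw [Pi.add_apply, Pi.add_apply, Pi.single_eq_same, Pi.single_eq_of_ne (one_ne hm j).symm,
          Pi.single_eq_of_ne hij'.symm, add_zero, zero_add, hij2,
          Pi.single_eq_of_ne (two_ne hm j).symm] at e2
        simp at e2
      · rw [Pi.single_eq_of_ne hij2] at e1
        simp at e1
  have hθE : ∀ s, θ s ∈ M.E := by
    rintro (i | i)
    · exact hz'E i
    · exact hx'E i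
  have hθC : ∀ s, θ s ∉ C' := fun s hs' => hφθ s (hφC _ hs'.2)
  set N : Matroid α := M ／ C' ＼ (M.E \ Set.range θ) with hN
  have hNE : N.E = Set.range θ := by
    rw [hN, Matroid.delete_ground, Matroid.contract_ground]
    ext e
    simp only [Set.mem_sdiff, not_and, not_not]
    constructor
    · rintro ⟨⟨h1, h2⟩, h3⟩; exact h3 h1
    · rintro ⟨s, rfl⟩
      exact ⟨⟨hθE s, hθC s⟩, fun _ => ⟨s, rfl⟩⟩
  refine ⟨N, ⟨C', _, rfl⟩, Function.extend θ wEdge (fun _ => s(none, none)), ?_, ?_⟩
  · rw [hNE, ← wEdge_range hm]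
    refine ⟨?_, ?_, ?_⟩
    · rintro _ ⟨s, rfl⟩
      rw [hθinj.extend_apply]
      exact ⟨s, rfl⟩
    · rintro _ ⟨s, rfl⟩ _ ⟨s', rfl⟩ hss
      rw [hθinj.extend_apply, hθinj.extend_apply] at hss
      rw [wEdge_inj hm hss]
    · rintro _ ⟨s, rfl⟩
      exact ⟨θ s, ⟨s, rfl⟩, hθinj.extend_apply _ _ _⟩
  · intro I hI
    rw [hNE] at hI
    have hIE : I ⊆ M.E := fun e he => by
      obtain ⟨s, rfl⟩ := hI he; exact hθE s
    have hIC : Disjoint C' I := by
      rw [Set.disjoint_right]
      intro e he
      obtain ⟨s, rfl⟩ := hI he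
      exact hθC s
    rw [hN, Matroid.delete_indep_iff, contract_rep M v hv hC'E hIE hIC, hvC']
    have hdisj : Disjoint I (M.E \ Set.range θ) := by
      rw [Set.disjoint_left]
      intro e he h2
      exact h2.2 (hI he)
    rw [and_iff_left hdisj]
    set f := Function.extend θ wEdge (fun _ => s(none, none)) with hf
    have hfinj : Set.InjOn f I := by
      intro e he e' he' hee
      obtain ⟨s, rfl⟩ := hI he
      obtain ⟨s', rfl⟩ := hI he'
      rw [hf, hθinj.extend_apply, hθinj.extend_apply] at hee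
      rw [wEdge_inj hm hee]
    have hfI : (f '' I).Finite := (M.ground_finite.subset hIE).image _
    rw [← linearIndepOn_edgeVec_iff ω hgen (f '' I) hfI]
    · have hcongr : Set.EqOn (π ∘ v) (edgeVec ω ∘ f) I := by
        intro e he
        obtain ⟨s, rfl⟩ := hI he
        rw [Function.comp_apply, Function.comp_apply, hedge, hf, hθinj.extend_apply]
      constructor
      · intro h1
        exact (h1.congr hcongr).image_of_comp
      · intro h1
        exact (h1.comp_of_image hfinj).congr hcongr.symm
    · rintro _ ⟨e, he, rfl⟩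
      obtain ⟨s, rfl⟩ := hI he
      rw [hf, hθinj.extend_apply]
      exact wEdge_not_isDiag hm s

lemma exists_functional {V : Type*} [AddCommGroup V] [Module (ZMod 2) V] {S : Set V}
    (hS : LinearIndepOn (ZMod 2) id S) : ∃ φ : Module.Dual (ZMod 2) V, ∀ s ∈ S, φ s = 1 := by
  have hli := hS.linearIndependent
  obtain ⟨φ, hφ⟩ := LinearMap.exists_extend
    ((Module.Basis.span hli).constr (ZMod 2) (fun _ : S => (1 : ZMod 2)))
  refine ⟨φ, fun s hs => ?_⟩
  have h1 := congrArg (fun f => f ((Module.Basis.span hli) ⟨s, hs⟩)) hφ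
  simp only [LinearMap.comp_apply, Submodule.subtype_apply, Module.Basis.constr_basis] at h1
  rw [Module.Basis.span_apply] at h1
  exact h1

end Aux

/-- Let `r ≥ 3` and let `M` be a finite binary matroid with no minor isomorphic to `M(W_r)`.
If `M` is loopless then its critical exponent `c(M; 2)` exists and is at most
`choose (2 r - 3) (r - 2)`.  If `M` is simple then it has at most
`choose (2 r - 3) (r - 2) * rank` elements. -/
theorem result (r : ℕ) (hr : 3 ≤ r) (α : Type u) (M : Matroid α) [M.Finite] (hM : IsBinary M)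
    (hW : WheelFree r M) :
    (M.Loopless → ∃ k, IsCriticalExponent M k ∧ k ≤ (2 * r - 3).choose (r - 2)) ∧
    ((∀ e ∈ M.E, ∀ f ∈ M.E, M.Indep {e, f}) →
      M.E.ncard ≤ (2 * r - 3).choose (r - 2) * (M.eRk M.E).toNat) := by
  classical
  obtain ⟨a, rfl⟩ : ∃ a, r = a + 2 := ⟨r - 2, by omega⟩
  obtain ⟨n, v, hv⟩ := hM
  have ht : (2 * (a + 2) - 3).choose (a + 2 - 2) = (2 * a + 1).choose a := by
    congr 1
  rw [ht]
  set t := (2 * a + 1).choose a with htdef
  have htpos : 0 < t := Nat.choose_pos (by omega)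
  have hnoW : ¬ HasWheel (a + 1) (v '' M.E) := by
    intro h
    obtain ⟨N, hN, hiso⟩ := exists_wheel_minor (by omega) M v hv h
    exact hW N hN (by rw [wheelGraph_eq]; exact hiso)
  set X : Finset (Fin n → ZMod 2) := M.ground_finite.toFinset.image v with hX
  have hXc : (X : Set (Fin n → ZMod 2)) = v '' M.E := by
    rw [hX, Finset.coe_image, Set.Finite.coe_toFinset]
  have hdens : ∀ A ⊆ X, (0 : Fin n → ZMod 2) ∉ X →
      A.card ≤ t * Module.finrank (ZMod 2) (Submodule.span (ZMod 2) (A : Set (Fin n → ZMod 2))) := by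
    intro A hA h0
    refine density a _ _ A (fun h => h0 (hA h)) (fun h => hnoW (h.mono ?_)) le_rfl
    rw [← hXc]
    exact_mod_cast hA
  constructor
  · intro hloop
    have h0 : (0 : Fin n → ZMod 2) ∉ X := by
      intro h
      rw [← Finset.mem_coe, hXc] at h
      obtain ⟨e, he, h0⟩ := h
      have h1 : M.Indep {e} := M.subsingleton_indep Set.subsingleton_singleton (by simpa using he)
      have h2 := ((hv _).1 h1).2.ne_zero (Set.mem_singleton e)
      exact h2 h0
    obtain ⟨c, hc, hind⟩ := exists_cover (K := ZMod 2) t X (fun A hA => hdens A hA h0)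
    choose Φ hΦ using fun j => exists_functional (hind j)
    have hpos : 0 < (charPoly M).eval (2 ^ t) := by
      have h1 := charPoly_pos (n := n) t v M.ground_finite.toFinset (fun j : Fin t => Φ j)
        (by
          intro e he
          have hvX : v e ∈ X := Finset.mem_image_of_mem _ he
          refine ⟨⟨c (v e), hc _ hvX⟩, ?_⟩
          simp only
          rw [hΦ (c (v e)) (v e) ⟨hvX, rfl⟩]
          exact one_ne_zero)
        (fun A => (M.eRk (A : Set α)).toNat)
        (by
          intro A hA
          refine eRk_toNat_eq M v hv ?_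
          intro e he
          exact M.ground_finite.mem_toFinset.1 (hA he))
      rw [charPoly, Polynomial.eval_finsetSum]
      simp only [Set.Finite.coe_toFinset] at h1
      convert h1 using 2 with A hA
      simp
    set S : Set ℕ := {k : ℕ | 0 < k ∧ 0 < (charPoly M).eval (2 ^ k)} with hS
    have htS : t ∈ S := ⟨htpos, hpos⟩
    exact ⟨sInf S, ⟨Nat.sInf_mem ⟨t, htS⟩, fun k hk => Nat.sInf_le hk⟩, Nat.sInf_le htS⟩
  · intro hsimple
    have hinj : Set.InjOn v M.E := by
      intro e he f hf hef
      have h1 := ((hv _).1 (hsimple e he f hf)).2.injOn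
      exact h1 (by simp) (by simp) hef
    have h0 : (0 : Fin n → ZMod 2) ∉ X := by
      intro h
      rw [← Finset.mem_coe, hXc] at h
      obtain ⟨e, he, h0⟩ := h
      have h2 := ((hv _).1 (hsimple e he e he)).2.ne_zero (Set.mem_insert e _)
      exact h2 h0
    have h1 := hdens X subset_rfl h0
    have h2 : X.card = M.E.ncard := by
      rw [hX, Finset.card_image_of_injOn, Set.ncard_eq_toFinset_card _ M.ground_finite]
      intro e he f hf hef
      exact hinj (by simpa using he) (by simpa using hf) hef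
    rw [hXc, ← eRk_toNat_eq M v hv subset_rfl, h2] at h1
    exact h1

end Pool.Agent.Results.MP_68998c_co.WheelCriticalExponent
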